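import Pool.Agent.Lib.MP_1c8e06_ag.AI.FIN

set_option autoImplicit false

namespace Pool.Agent.Results.MP_1c8e06_ag.CommutingConjugates

/-- Inertia groups of order `p`, every prime `p`: if the finite group `G` is generated by an
element `g` of order `p` and its conjugates `a g a⁻¹`, where `a` has order prime to `p` and
commutes with its conjugates `g^i a g^(-i)`, then some `G`-Galois extension of `k(x)`,
unramified over the affine line, has inertia exactly `⟨g⟩` at a place over infinity. -/
theorem result :
    ∀ (p : ℕ), p.Prime → ∀ (k : Type) [Field k] [IsAlgClosed k] [CharP k p]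
      (G : Type) [Group G] [Finite G] (g : G), orderOf g = p →
      Subgroup.closure ({g} ∪ {x | ∃ a : G, ¬ p ∣ orderOf a ∧
        (∀ i : ℕ, Commute a (g ^ i * a * (g ^ i)⁻¹)) ∧ x = a * g * a⁻¹}) = ⊤ →
      ∃ (L : Type) (_ : Field L) (_ : Algebra (RatFunc k) L)
          (_ : FiniteDimensional (RatFunc k) L) (_ : IsGalois (RatFunc k) L)
          (e : (L ≃ₐ[RatFunc k] L) ≃* G),
          (∀ O : ValuationSubring L,
            (∀ c : k, algebraMap (RatFunc k) L (algebraMap k (RatFunc k) c) ∈ O) →
            algebraMap (RatFunc k) L RatFunc.X ∈ O →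
            O.inertiaSubgroup (RatFunc k) = ⊥) ∧
          ∃ O : ValuationSubring L,
            (∀ c : k, algebraMap (RatFunc k) L (algebraMap k (RatFunc k) c) ∈ O) ∧
            algebraMap (RatFunc k) L (RatFunc.X)⁻¹ ∈ O ∧
            algebraMap (RatFunc k) L RatFunc.X ∉ O ∧
            ((O.inertiaSubgroup (RatFunc k)).map
                (O.decompositionSubgroup (RatFunc k)).subtype).map e.toMonoidHom =
              Subgroup.zpowers g := by
  intro p hp k _ _ _ G _ _ g h1 h2
  haveI : Fact p.Prime := ⟨hp⟩
  exact Pool.Agent.MP_1c8e06_ag.AI.mainT k g h1 h2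

end Pool.Agent.Results.MP_1c8e06_ag.CommutingConjugates
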