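import Pool.Agent.Lib.MP_1c8e06_ag.CY.Fin

set_option autoImplicit false

namespace Pool.Agent.Results.MP_1c8e06_ag.CyclicSylow

/-- The inertia group of a valuation subring of `L`, as a subgroup of the Galois group. -/
noncomputable def Inertia (K L : Type) [Field K] [Field L] [Algebra K L]
    (O : ValuationSubring L) : Subgroup (L ≃ₐ[K] L) :=
  (O.inertiaSubgroup K).map (O.decompositionSubgroup K).subtype

/-- The valuation subring `O` of `L` contains `k` and the rational function `f`. -/
def Contains (k L : Type) [Field k] [Field L] [Algebra (RatFunc k) L] (O : ValuationSubring L)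
    (f : RatFunc k) : Prop :=
  (∀ c : k, algebraMap (RatFunc k) L (algebraMap k (RatFunc k) c) ∈ O) ∧
    algebraMap (RatFunc k) L f ∈ O

/-- `L / k(x)` is unramified over the affine line, and the isomorphism `e` maps the inertia group
at some place over infinity onto `P`. -/
def Cover (k L G : Type) [Field k] [Field L] [Algebra (RatFunc k) L] [Group G]
    (e : (L ≃ₐ[RatFunc k] L) ≃* G) (P : Subgroup G) : Prop :=
  (∀ O : ValuationSubring L, Contains k L O RatFunc.X → Inertia (RatFunc k) L O = ⊥) ∧
    ∃ O : ValuationSubring L, Contains k L O (RatFunc.X)⁻¹ ∧ ¬ Contains k L O RatFunc.X ∧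
      (Inertia (RatFunc k) L O).map e.toMonoidHom = P

/-- The existence half of the inertia conjecture for the pair `(G, P)`: some `G`-Galois extension
of `k(x)`, unramified over the affine line, has inertia exactly `P` at a place over infinity. -/
def Occurs (k : Type) [Field k] (G : Type) [Group G] (P : Subgroup G) : Prop :=
  ∃ (L : Type) (_ : Field L) (_ : Algebra (RatFunc k) L)
    (_ : FiniteDimensional (RatFunc k) L) (_ : IsGalois (RatFunc k) L)
    (e : (L ≃ₐ[RatFunc k] L) ≃* G), Cover k L G e P

theorem occurs_iff (k : Type) [Field k] (G : Type) [Group G] (P : Subgroup G) :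
    Occurs k G P ↔ Pool.Agent.MP_1c8e06_ag.AI.Realised k G P := by
  constructor
  · rintro ⟨L, i1, i2, i3, i4, e, h1, O, h2, h3, h4⟩
    refine ⟨L, i1, i2, i3, i4, e, fun O hc hX => ?_, O, h2.1, h2.2, fun hX => h3 ⟨h2.1, hX⟩, h4⟩
    exact (Subgroup.map_eq_bot_iff_of_injective _ (Subgroup.subtype_injective _)).1
      (h1 O ⟨hc, hX⟩)
  · rintro ⟨L, i1, i2, i3, i4, e, h1, O, h2, h3, h4, h5⟩
    refine ⟨L, i1, i2, i3, i4, e, fun O hO => ?_, O, ⟨h2, h3⟩, fun hX => h4 hX.2, h5⟩
    exact (Subgroup.map_eq_bot_iff_of_injective _ (Subgroup.subtype_injective _)).2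
      (h1 O hO.1 hO.2)

/-- The minimal pairs: `x` has order `p`, its conjugates generate `X`, it lies in exactly one
maximal subgroup of `X`, and there is a homomorphism `q` from `X` onto an almost simple group
`A = T ⟨q x⟩`, `T` a normal simple subgroup of order divisible by `p` with trivial centraliser,
such that the kernel of `q` has order prime to `p` and is contained in all maximal subgroups. -/
def Minimal (p : ℕ) (X : Type) [Group X] (x : X) : Prop :=
  orderOf x = p ∧ Subgroup.normalClosure ({x} : Set X) = ⊤ ∧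
    (∃! M : Subgroup X, IsCoatom M ∧ x ∈ M) ∧
    ∃ (A : Type) (_ : Group A) (q : X →* A) (T : Subgroup A), Function.Surjective q ∧
      ¬ p ∣ Nat.card q.ker ∧ (∀ M : Subgroup X, IsCoatom M → q.ker ≤ M) ∧
      T.Normal ∧ IsSimpleGroup T ∧ Subgroup.centralizer (T : Set A) = ⊥ ∧ p ∣ Nat.card T ∧
      T ⊔ Subgroup.zpowers (q x) = ⊤

/-- Every nontrivial `p`-subgroup of `X` normalises exactly one conjugate of `⟨x⟩`. -/
def Isolated (p : ℕ) (X : Type) [Group X] (x : X) : Prop :=
  ∀ J : Subgroup X, IsPGroup p J → J ≠ ⊥ →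
    ∃! C : Subgroup X, (∃ g : X, C = Subgroup.zpowers (g * x * g⁻¹)) ∧
      J ≤ Subgroup.normalizer (C : Set X)

/-- Wild inertia in groups with cyclic Sylow subgroups.  Let `G` be a finite group.  If `p` is
odd, suppose that the inertia conjecture holds for the minimal pairs `(X, ⟨x⟩)`, `X` a section of
`G`, for which the Sylow `p`-subgroups of `X` are not cyclic and `x` is not isolated.  Then it
holds for `G` and all its `p`-subgroups `P`. -/
theorem result :
    ∀ (p : ℕ), p.Prime → ∀ (k : Type) [Field k] [IsAlgClosed k] [CharP k p]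
      (G : Type) [Group G] [Finite G],
      (p ≠ 2 → ∀ (L : Subgroup G) (X : Type) [Group X] (f : L →* X) (x : X),
        Function.Surjective f → Minimal p X x → (¬ ∀ Q : Sylow p X, IsCyclic Q) →
        ¬ Isolated p X x → Occurs k X (Subgroup.zpowers x)) →
      ∀ P : Subgroup G, IsPGroup p P → Subgroup.normalClosure (P : Set G) = ⊤ → Occurs k G P := by
  intro p hp k _ _ _ G _ _ hG P h1 h2
  rw [occurs_iff]
  by_cases hp2 : p = 2
  · subst hp2
    exact Pool.Agent.MP_1c8e06_ag.AJ.main_char_two k P h1 h2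
  · have : Fact p.Prime := ⟨hp⟩
    refine Pool.Agent.MP_1c8e06_ag.CY.main_fin k ?_ P h1 h2
    rintro L X _ f x hf ⟨hx, hgen, hM, R, hRn, T, hR, hRM, hTn, hTs, hTc, hpT, hTx⟩ hI hQ
    refine (occurs_iff k X _).1 <| hG hp2 L X f x hf ⟨hx, hgen, hM, X ⧸ R, inferInstance,
      QuotientGroup.mk' R, T,
      QuotientGroup.mk'_surjective R, ?_, ?_, hTn, hTs, hTc, hpT, hTx⟩ hQ hI
    · rw [QuotientGroup.ker_mk']
      exact hR
    · rw [QuotientGroup.ker_mk']
      exact hRM

end Pool.Agent.Results.MP_1c8e06_ag.CyclicSylow
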