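import Pool.Agent.Lib.MP_1c8e06_ag.AN.G1

set_option autoImplicit false

namespace Pool.Agent.Results.MP_1c8e06_ag.LieType

open Pool.Agent.MP_1c8e06_ag

/-- The wild part of the inertia conjecture for all finite groups `G` such that `G ⧸ N`, `N` a
normal `p`-subgroup, is generated by pairwise commuting nonabelian subgroups of the class `Good`
(groups of Lie type in characteristic `p`, central quotients of `SL_n(F)`, alternating groups,
groups with a parabolic system with factors in the class), and for all `p`-subgroups `P`. -/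
theorem result :
    ∀ (p : ℕ), p.Prime → ∀ (k : Type) [Field k] [IsAlgClosed k] [CharP k p]
      (G : Type) [Group G] [Finite G] (N : Subgroup G) [N.Normal], IsPGroup p N →
      ∀ (A : Type) [Finite A] (K : A → Subgroup (G ⧸ N)),
      (∀ a b, a ≠ b → ∀ x ∈ K a, ∀ y ∈ K b, x * y = y * x) → ⨆ a, K a = ⊤ →
      (∀ a, AN.Good p (K a) inferInstance) →
      (∀ a, ∃ x ∈ K a, ∃ y ∈ K a, x * y ≠ y * x) → (∀ a, p ∣ Nat.card (K a)) →
      ∀ (P : Subgroup G), IsPGroup p P → Subgroup.normalClosure (P : Set G) = ⊤ →
      ∃ (L : Type) (_ : Field L) (_ : Algebra (RatFunc k) L)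
          (_ : FiniteDimensional (RatFunc k) L) (_ : IsGalois (RatFunc k) L)
          (e : (L ≃ₐ[RatFunc k] L) ≃* G),
          (∀ O : ValuationSubring L,
            (∀ c : k, algebraMap (RatFunc k) L (algebraMap k (RatFunc k) c) ∈ O) →
            algebraMap (RatFunc k) L RatFunc.X ∈ O →
            O.inertiaSubgroup (RatFunc k) = ⊥) ∧
          ∃ O : ValuationSubring L,
            (∀ c : k, algebraMap (RatFunc k) L (algebraMap k (RatFunc k) c) ∈ O) ∧
            algebraMap (RatFunc k) L (RatFunc.X)⁻¹ ∈ O ∧
            algebraMap (RatFunc k) L RatFunc.X ∉ O ∧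
            ((O.inertiaSubgroup (RatFunc k)).map
                (O.decompositionSubgroup (RatFunc k)).subtype).map e.toMonoidHom = P := by
  intro p hp k _ _ _ G _ _ N _ hN A _ K hcomm hgen hgood hna hd P hP hPgen
  exact AN.main hp k N hN K hcomm hgen hgood hna hd P hP hPgen

end Pool.Agent.Results.MP_1c8e06_ag.LieType
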